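import Mathlib

/-!
# Inequalities for the cone theorem on lemniscates (MP_ff60c2_an, helper8)

`far_le`: weighted geometric means of distances to a point outside an interval.
`cone_lt`: the inequality for the zeros of a cluster that lie in a double cone of slope `κ`
with apex at the centre of the disc.
-/

open Set

namespace Pool.Agent.H8.CL

/-- far zeros: for `w` outside `(a, b)` the distance from `x = (1 - v) a + v b` to `w` is at least
the weighted geometric mean of the distances from `a` and `b`. -/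
theorem le_of_sq_le_sq {x y : ℝ} (h : x ^ 2 ≤ y ^ 2) (hy : 0 ≤ y) : x ≤ y := by
  have := sq_le_sq.mp h
  rw [abs_of_nonneg hy] at this
  exact (le_abs_self x).trans this

theorem far_le {a b w v : ℝ} (hab : a ≤ b) (hv0 : 0 ≤ v) (hv1 : v ≤ 1) (hw : w ≤ a ∨ b ≤ w) :
    |a - w| ^ (1 - v) * |b - w| ^ v ≤ |(1 - v) * a + v * b - w| := by
  have h := Real.geom_mean_le_arith_mean2_weighted (sub_nonneg.mpr hv1) hv0 (abs_nonneg (a - w))
    (abs_nonneg (b - w)) (by ring)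
  refine h.trans ?_
  rcases hw with hw | hw
  · rw [abs_of_nonneg (by linarith : 0 ≤ a - w), abs_of_nonneg (by linarith : 0 ≤ b - w)]
    refine le_trans (le_of_eq ?_) (le_abs_self _)
    ring
  · rw [abs_of_nonpos (by linarith : a - w ≤ 0), abs_of_nonpos (by linarith : b - w ≤ 0)]
    refine le_trans (le_of_eq ?_) (neg_le_abs _)
    ring

/-- normalised inequality, `s ≥ 0`, `ξ ≥ 0` -/
theorem cone_norm_pos {ξ s h κ : ℝ} (hξ0 : 0 ≤ ξ) (hξ1 : ξ ≤ 1) (hs0 : 0 ≤ s) (hs1 : s ≤ 1)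
    (hκ : 0 ≤ κ) (hh : 0 ≤ h) (hout : 1 + κ ^ 2 < ξ ^ 2 + h ^ 2) :
    (1 + s) ^ (1 - ξ) * (1 - s) ^ (1 + ξ) < (ξ - s) ^ 2 + (h - κ * s) ^ 2 := by
  set h0 := Real.sqrt (1 + κ ^ 2 - ξ ^ 2) with hh0
  have hnn : 0 ≤ 1 + κ ^ 2 - ξ ^ 2 := by nlinarith
  have hh0sq : h0 ^ 2 = 1 + κ ^ 2 - ξ ^ 2 := Real.sq_sqrt hnn
  have hh0nn : 0 ≤ h0 := Real.sqrt_nonneg _
  have hh0h : h0 < h := by
    refine lt_of_pow_lt_pow_left₀ 2 hh ?_
    rw [hh0sq]; linarith
  have hh0κ : κ ≤ h0 := by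
    refine le_of_sq_le_sq ?_ hh0nn
    rw [hh0sq]; nlinarith
  have h1 : (1 + s) ^ (1 - ξ) ≤ 1 + (1 - ξ) * s :=
    rpow_one_add_le_one_add_mul_self (by linarith) (by linarith) (by linarith)
  have h2 : (1 - s) ^ (1 + ξ) ≤ (1 - s) * (1 - ξ * s) := by
    have h3 : (1 - s) ^ ξ ≤ 1 - ξ * s := by
      have := rpow_one_add_le_one_add_mul_self (s := -s) (by linarith) hξ0 hξ1
      calc (1 - s) ^ ξ = (1 + -s) ^ ξ := by rw [sub_eq_add_neg]
        _ ≤ 1 + ξ * -s := this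
        _ = 1 - ξ * s := by ring
    rw [Real.rpow_add' (by linarith) (by linarith), Real.rpow_one]
    exact mul_le_mul_of_nonneg_left h3 (by linarith)
  have h4 : (1 + s) ^ (1 - ξ) * (1 - s) ^ (1 + ξ)
      ≤ (1 + (1 - ξ) * s) * ((1 - s) * (1 - ξ * s)) := by
    apply mul_le_mul h1 h2 (Real.rpow_nonneg (by linarith) _)
    have : 0 ≤ (1 - ξ) * s := mul_nonneg (by linarith) hs0
    linarith
  refine lt_of_le_of_lt h4 ?_
  have h5 : (ξ - s) ^ 2 + (h0 - κ * s) ^ 2 - (1 + (1 - ξ) * s) * ((1 - s) * (1 - ξ * s))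
      = (κ - h0 * s) ^ 2 + s ^ 2 * ((1 - ξ) * (1 - ξ * s)) := by
    have : h0 ^ 2 = 1 + κ ^ 2 - ξ ^ 2 := hh0sq
    linear_combination (1 - s ^ 2) * this
  have h6 : 0 ≤ (κ - h0 * s) ^ 2 + s ^ 2 * ((1 - ξ) * (1 - ξ * s)) := by
    have : 0 ≤ 1 - ξ * s := by nlinarith
    have : 0 ≤ (1 - ξ) * (1 - ξ * s) := mul_nonneg (by linarith) this
    positivity
  have h7 : (h0 - κ * s) ^ 2 < (h - κ * s) ^ 2 := by
    have : 0 < (h - h0) * (h + h0 - 2 * (κ * s)) := by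
      apply mul_pos (by linarith)
      have : κ * s ≤ κ := by nlinarith
      linarith
    nlinarith
  linarith

/-- normalised inequality, `s ≥ 0`, `ξ = -x ≤ 0` -/
theorem cone_norm_neg {x s h κ : ℝ} (hx0 : 0 ≤ x) (hx1 : x ≤ 1) (hs0 : 0 ≤ s) (hs1 : s ≤ 1)
    (hκ : 0 ≤ κ) (hh : 0 ≤ h) (hout : 1 + κ ^ 2 < x ^ 2 + h ^ 2) :
    (1 + s) ^ (1 + x) * (1 - s) ^ (1 - x) < (-x - s) ^ 2 + (h - κ * s) ^ 2 := by
  set h0 := Real.sqrt (1 + κ ^ 2 - x ^ 2) with hh0
  have hnn : 0 ≤ 1 + κ ^ 2 - x ^ 2 := by nlinarith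
  have hh0sq : h0 ^ 2 = 1 + κ ^ 2 - x ^ 2 := Real.sq_sqrt hnn
  have hh0nn : 0 ≤ h0 := Real.sqrt_nonneg _
  have hh0h : h0 < h := by
    refine lt_of_pow_lt_pow_left₀ 2 hh ?_
    rw [hh0sq]; linarith
  have hh0κ : κ ≤ h0 := by
    refine le_of_sq_le_sq ?_ hh0nn
    rw [hh0sq]; nlinarith
  have h1 : (1 + s) ^ (1 + x) ≤ (1 + s) * (1 + x * s) := by
    have h3 : (1 + s) ^ x ≤ 1 + x * s :=
      rpow_one_add_le_one_add_mul_self (by linarith) hx0 hx1
    rw [Real.rpow_add' (by linarith) (by linarith), Real.rpow_one]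
    exact mul_le_mul_of_nonneg_left h3 (by linarith)
  have h2 : (1 - s) ^ (1 - x) ≤ 1 - (1 - x) * s := by
    have := rpow_one_add_le_one_add_mul_self (s := -s) (p := 1 - x) (by linarith)
      (by linarith) (by linarith)
    calc (1 - s) ^ (1 - x) = (1 + -s) ^ (1 - x) := by rw [sub_eq_add_neg]
      _ ≤ 1 + (1 - x) * -s := this
      _ = 1 - (1 - x) * s := by ring
  have h4 : (1 + s) ^ (1 + x) * (1 - s) ^ (1 - x)
      ≤ ((1 + s) * (1 + x * s)) * (1 - (1 - x) * s) := by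
    apply mul_le_mul h1 h2 (Real.rpow_nonneg (by linarith) _)
    positivity
  refine lt_of_le_of_lt h4 ?_
  have h5 : (-x - s) ^ 2 + (h0 - κ * s) ^ 2 - ((1 + s) * (1 + x * s)) * (1 - (1 - x) * s)
      = (κ - h0 * s) ^ 2 + s ^ 2 * ((1 - x) * (1 + x * s)) := by
    have : h0 ^ 2 = 1 + κ ^ 2 - x ^ 2 := hh0sq
    linear_combination (1 - s ^ 2) * this
  have h6 : 0 ≤ (κ - h0 * s) ^ 2 + s ^ 2 * ((1 - x) * (1 + x * s)) := by
    have : 0 ≤ (1 - x) * (1 + x * s) := mul_nonneg (by linarith) (by positivity)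
    positivity
  have h7 : (h0 - κ * s) ^ 2 < (h - κ * s) ^ 2 := by
    have : 0 < (h - h0) * (h + h0 - 2 * (κ * s)) := by
      apply mul_pos (by linarith)
      have : κ * s ≤ κ := by nlinarith
      linarith
    nlinarith
  linarith

/-- normalised inequality, all signs -/
theorem cone_norm {ξ s h η κ : ℝ} (hξ : |ξ| ≤ 1) (hs : |s| ≤ 1) (hκ : 0 ≤ κ)
    (hη : |η| ≤ κ * |s|) (hout : 1 + κ ^ 2 < ξ ^ 2 + h ^ 2) :
    (1 + s) ^ (1 - ξ) * (1 - s) ^ (1 + ξ) < (ξ - s) ^ 2 + (h - η) ^ 2 := by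
  -- reduce to `η = κ |s|`, `h = |h|`
  have hh : κ ≤ |h| := by
    have h1 : κ ^ 2 ≤ h ^ 2 := by
      have : ξ ^ 2 ≤ 1 := by
        have := sq_abs ξ
        nlinarith [abs_nonneg ξ]
      linarith
    calc κ = |κ| := (abs_of_nonneg hκ).symm
      _ ≤ |h| := sq_le_sq.mp h1
  have hred : (|h| - κ * |s|) ^ 2 ≤ (h - η) ^ 2 := by
    have h1 : |h| - κ * |s| ≤ |h - η| := by
      have := abs_sub_abs_le_abs_sub h η
      linarith
    have h2 : 0 ≤ |h| - κ * |s| := by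
      have : κ * |s| ≤ κ := by nlinarith [abs_nonneg s]
      linarith
    calc (|h| - κ * |s|) ^ 2 ≤ |h - η| ^ 2 := pow_le_pow_left₀ h2 h1 2
      _ = (h - η) ^ 2 := sq_abs _
  have hout' : 1 + κ ^ 2 < ξ ^ 2 + |h| ^ 2 := by rw [sq_abs]; exact hout
  have hξ' := abs_le.mp hξ
  have hs' := abs_le.mp hs
  refine lt_of_lt_of_le ?_ (add_le_add_right hred ((ξ - s) ^ 2))
  rcases le_total 0 s with h0s | h0s
  · rw [abs_of_nonneg h0s]
    rcases le_total 0 ξ with h0 | h0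
    · exact cone_norm_pos h0 hξ'.2 h0s hs'.2 hκ (abs_nonneg h) hout'
    · have := cone_norm_neg (x := -ξ) (s := s) (h := |h|) (κ := κ) (by linarith) (by linarith) h0s
        hs'.2 hκ (abs_nonneg h) (by rw [neg_sq]; exact hout')
      simpa [sub_eq_add_neg] using this
  · rw [abs_of_nonpos h0s]
    rcases le_total 0 ξ with h0 | h0
    · have := cone_norm_neg (x := ξ) (s := -s) (h := |h|) (κ := κ) h0 hξ'.2 (by linarith)
        (by linarith) hκ (abs_nonneg h) hout'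
      calc (1 + s) ^ (1 - ξ) * (1 - s) ^ (1 + ξ)
          = (1 + -s) ^ (1 + ξ) * (1 - -s) ^ (1 - ξ) := by
            rw [sub_neg_eq_add, ← sub_eq_add_neg, mul_comm]
        _ < _ := this
        _ = _ := by ring
    · have := cone_norm_pos (ξ := -ξ) (s := -s) (h := |h|) (κ := κ) (by linarith) (by linarith)
        (by linarith) (by linarith) hκ (abs_nonneg h) (by rw [neg_sq]; exact hout')
      calc (1 + s) ^ (1 - ξ) * (1 - s) ^ (1 + ξ)
          = (1 + -s) ^ (1 - -ξ) * (1 - -s) ^ (1 + -ξ) := by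
            rw [sub_neg_eq_add, sub_neg_eq_add, ← sub_eq_add_neg, ← sub_eq_add_neg, mul_comm]
        _ < _ := this
        _ = _ := by ring

/-- The cluster inequality: `[a, b]` has half length `R` and centre `c`; the point `(x, y)` lies
over `[a, b]`, `x = (1 - v) a + v b`, and outside the closed disc with centre `(c, y₀)` and radius
`√(1 + κ²) R`; the zero `(p, q)` lies over `[a, b]` and in the double cone of slope `κ` with apex
`(c, y₀)`. -/
theorem cone_lt {a b v y y₀ p q κ : ℝ} (hab : a < b) (hv0 : 0 ≤ v) (hv1 : v ≤ 1)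
    (hp : p ∈ Icc a b) (hκ : 0 ≤ κ) (hq : |q - y₀| ≤ κ * |p - (a + b) / 2|)
    (hout : (1 + κ ^ 2) * ((b - a) / 2) ^ 2 <
      ((1 - v) * a + v * b - (a + b) / 2) ^ 2 + (y - y₀) ^ 2) :
    |a - p| ^ (1 - v) * |b - p| ^ v <
      Real.sqrt (((1 - v) * a + v * b - p) ^ 2 + (y - q) ^ 2) := by
  set R := (b - a) / 2 with hR
  have hRpos : 0 < R := by rw [hR]; linarith
  set c := (a + b) / 2 with hc
  have hξ : |2 * v - 1| ≤ 1 := abs_le.mpr ⟨by linarith, by linarith⟩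
  have hs : |(p - c) / R| ≤ 1 := by
    rw [abs_div, abs_of_pos hRpos, div_le_one hRpos]
    exact abs_le.mpr ⟨by linarith [hp.1], by linarith [hp.2]⟩
  have hη : |(q - y₀) / R| ≤ κ * |(p - c) / R| := by
    rw [abs_div (q - y₀) R, abs_div (p - c) R, abs_of_pos hRpos, ← mul_div_assoc]
    exact div_le_div_of_nonneg_right hq hRpos.le
  have hx : (1 - v) * a + v * b - c = (2 * v - 1) * R := by rw [hc, hR]; ring
  have hout2 : 1 + κ ^ 2 < (2 * v - 1) ^ 2 + ((y - y₀) / R) ^ 2 := by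
    rw [hx] at hout
    rw [div_pow]
    have h1 : (1 + κ ^ 2) * R ^ 2 < ((2 * v - 1) ^ 2 + (y - y₀) ^ 2 / R ^ 2) * R ^ 2 := by
      have : (y - y₀) ^ 2 / R ^ 2 * R ^ 2 = (y - y₀) ^ 2 := by field_simp
      nlinarith
    exact lt_of_mul_lt_mul_right h1 (by positivity)
  have key := cone_norm hξ hs hκ hη hout2
  have hap : |a - p| = R * (1 + (p - c) / R) := by
    rw [abs_sub_comm, abs_of_nonneg (by linarith [hp.1])]
    field_simp
    rw [hc, hR]; ring
  have hbp : |b - p| = R * (1 - (p - c) / R) := by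
    rw [abs_of_nonneg (by linarith [hp.2])]
    field_simp
    rw [hc, hR]; ring
  have hs' := abs_le.mp hs
  have h1s : 0 ≤ 1 + (p - c) / R := by linarith
  have h2s : 0 ≤ 1 - (p - c) / R := by linarith
  have hexp : ((1 + (p - c) / R) ^ (1 - v) * (1 - (p - c) / R) ^ v) ^ 2
      = (1 + (p - c) / R) ^ (1 - (2 * v - 1)) * (1 - (p - c) / R) ^ (1 + (2 * v - 1)) := by
    rw [mul_pow, ← Real.rpow_natCast, ← Real.rpow_natCast, ← Real.rpow_mul h1s,
      ← Real.rpow_mul h2s]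
    congr 2 <;> push_cast <;> ring
  have hlhs : |a - p| ^ (1 - v) * |b - p| ^ v
      = R * ((1 + (p - c) / R) ^ (1 - v) * (1 - (p - c) / R) ^ v) := by
    rw [hap, hbp, Real.mul_rpow hRpos.le h1s, Real.mul_rpow hRpos.le h2s]
    have : R ^ (1 - v) * R ^ v = R := by
      rw [← Real.rpow_add hRpos]; simp
    calc R ^ (1 - v) * (1 + (p - c) / R) ^ (1 - v) * (R ^ v * (1 - (p - c) / R) ^ v)
        = (R ^ (1 - v) * R ^ v) * ((1 + (p - c) / R) ^ (1 - v) * (1 - (p - c) / R) ^ v) := by ring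
      _ = _ := by rw [this]
  rw [hlhs]
  apply Real.lt_sqrt_of_sq_lt
  rw [mul_pow, hexp]
  have h9 : ((1 - v) * a + v * b - p) ^ 2 + (y - q) ^ 2
      = R ^ 2 * ((2 * v - 1 - (p - c) / R) ^ 2 + ((y - y₀) / R - (q - y₀) / R) ^ 2) := by
    have e1 : (1 - v) * a + v * b - p = R * (2 * v - 1 - (p - c) / R) := by
      field_simp
      linarith
    have e2 : y - q = R * ((y - y₀) / R - (q - y₀) / R) := by
      field_simp
      ring
    rw [e1, e2]; ring
  rw [h9]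
  exact mul_lt_mul_of_pos_left key (by positivity)

end Pool.Agent.H8.CL
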