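import Mathlib

/-!
# Pólya's inequality for the set where a monic real polynomial is at most one in modulus

If `P` is monic of degree `n ≥ 1` and `|P| ≤ 1` on a compact set `S`, then
`vol(S) ^ n ≤ 2 ^ (2 n - 1)`.  (MP_ff60c2_an, helper8)
-/

open MeasureTheory Set Polynomial Polynomial.Chebyshev

namespace Pool.Agent.H8.CL

/-- The sum of the moduli of the Lagrange weights at the Chebyshev nodes is `2 ^ (n - 1)`. -/
theorem sum_inv_prod_abs_node (n : ℕ) :
    ∑ i ∈ Finset.range (n + 1), (∏ j ∈ (Finset.range (n + 1)).erase i, |node n i - node n j|)⁻¹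
      = 2 ^ (n - 1) := by
  have hinj : Set.InjOn (fun i => node n i) (Finset.range (n + 1)) := (strictAntiOn_node n).injOn
  have hdeg : (T ℝ n).degree < (Finset.range (n + 1)).card := by
    rw [Finset.card_range, degree_T]
    simp only [Int.natAbs_natCast]
    exact_mod_cast Nat.lt_succ_self n
  have h := Lagrange.coeff_eq_sum hinj hdeg
  simp only [Finset.card_range, Nat.add_sub_cancel] at h
  have hl : (T ℝ n).coeff n = 2 ^ (n - 1) := by
    trans (T ℝ n).leadingCoeff
    · simp [leadingCoeff]
    · simp
  rw [hl] at h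
  rw [h]
  refine Finset.sum_congr rfl (fun i hi => ?_)
  have hi' : i ≤ n := Nat.lt_succ_iff.mp (Finset.mem_range.mp hi)
  have hpos := zero_lt_prod_node_sub_node hi'
  rw [eval_T_real_node (Finset.mem_Iic.mpr hi'), ← Finset.abs_prod]
  set Q := ∏ j ∈ (Finset.range (n + 1)).erase i, (node n i - node n j) with hQ
  rcases neg_one_pow_eq_or ℝ i with h1 | h1
  · rw [h1] at hpos ⊢
    rw [abs_of_pos (by linarith), one_div]
  · rw [h1] at hpos ⊢
    have : Q < 0 := by linarith
    rw [abs_of_neg this, inv_neg, neg_div, one_div]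

variable {S : Set ℝ}

/-- the distribution function of `S` -/
noncomputable def distr (S : Set ℝ) (x : ℝ) : ℝ := volume.real (S ∩ Iic x)

theorem distr_sub_le (hS : IsCompact S) {x y : ℝ} (hxy : x ≤ y) :
    distr S y ≤ distr S x + (y - x) := by
  unfold distr
  have hfin : volume (S ∩ Iic x) ≠ ⊤ :=
    ne_top_of_le_ne_top hS.measure_lt_top.ne (measure_mono inter_subset_left)
  have h1 : S ∩ Iic y ⊆ (S ∩ Iic x) ∪ Ioc x y := by
    rintro t ⟨ht, hty⟩
    by_cases h : t ≤ x
    · exact Or.inl ⟨ht, h⟩
    · exact Or.inr ⟨lt_of_not_ge h, hty⟩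
  have h2 : volume.real (S ∩ Iic y) ≤ volume.real ((S ∩ Iic x) ∪ Ioc x y) :=
    measureReal_mono h1 (by
      refine (measure_union_lt_top hfin.lt_top ?_).ne
      simp)
  have h3 := measureReal_union_le (μ := volume) (S ∩ Iic x) (Ioc x y)
  have h4 : volume.real (Ioc x y) = y - x := by
    rw [measureReal_def, Real.volume_Ioc, ENNReal.toReal_ofReal (by linarith)]
  linarith

theorem distr_mono (hS : IsCompact S) : Monotone (distr S) := by
  intro x y hxy
  unfold distr
  exact measureReal_mono (inter_subset_inter_right _ (Iic_subset_Iic.mpr hxy))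
    (ne_top_of_le_ne_top hS.measure_lt_top.ne (measure_mono inter_subset_left))

theorem distr_cont (hS : IsCompact S) : Continuous (distr S) := by
  have hL : LipschitzWith 1 (distr S) := by
    refine LipschitzWith.of_dist_le_mul (fun x y => ?_)
    simp only [NNReal.coe_one, one_mul, Real.dist_eq]
    rcases le_total x y with h | h
    · rw [abs_sub_comm, abs_sub_comm x y, abs_of_nonneg (sub_nonneg.mpr (distr_mono hS h)),
        abs_of_nonneg (sub_nonneg.mpr h)]
      linarith [distr_sub_le hS h]
    · rw [abs_of_nonneg (sub_nonneg.mpr (distr_mono hS h)), abs_of_nonneg (sub_nonneg.mpr h)]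
      linarith [distr_sub_le hS h]
  exact hL.continuous

/-- Every value between `0` and `vol S` is attained by the distribution function on `S`. -/
theorem exists_distr_eq (hS : IsCompact S) (hne : S.Nonempty) {s : ℝ} (hs0 : 0 ≤ s)
    (hs1 : s ≤ volume.real S) : ∃ p ∈ S, distr S p = s := by
  set A : Set ℝ := S ∩ {x | s ≤ distr S x} with hA
  have hAc : IsCompact A := hS.inter_right (isClosed_le continuous_const (distr_cont hS))
  have hAne : A.Nonempty := by
    obtain ⟨m, hm, hmax⟩ := hS.exists_isGreatest hne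
    refine ⟨m, hm, ?_⟩
    have : S ∩ Iic m = S := inter_eq_left.mpr (fun x hx => hmax hx)
    simpa [distr, this] using hs1
  obtain ⟨p, hpA, hpmin⟩ := hAc.exists_isLeast hAne
  refine ⟨p, hpA.1, le_antisymm ?_ hpA.2⟩
  by_contra hlt
  push Not at hlt
  set x := p - (distr S p - s) / 2 with hx
  have hxp : x < p := by linarith
  have hx1 : s < distr S x := by
    have := distr_sub_le hS hxp.le
    linarith
  have hne' : (S ∩ Iic x).Nonempty := by
    by_contra h
    rw [not_nonempty_iff_eq_empty] at h
    unfold distr at hx1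
    rw [h] at hx1
    simp at hx1
    linarith
  obtain ⟨q, hq, hqmax⟩ := (hS.inter_right isClosed_Iic).exists_isGreatest hne'
  have hqx : S ∩ Iic q = S ∩ Iic x := by
    ext t
    constructor
    · rintro ⟨ht, htq⟩
      exact ⟨ht, Set.mem_Iic.mpr (le_trans (Set.mem_Iic.mp htq) (Set.mem_Iic.mp hq.2))⟩
    · rintro ⟨ht, htx⟩
      exact ⟨ht, hqmax ⟨ht, htx⟩⟩
  have hqA : q ∈ A := by
    refine ⟨hq.1, ?_⟩
    have : distr S q = distr S x := by unfold distr; rw [hqx]
    show s ≤ distr S q
    rw [this]
    exact hx1.le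
  have h1 := hpmin hqA
  have h2 : q ≤ x := hq.2
  linarith

/-- **Pólya's inequality**. -/
theorem polya {n : ℕ} (hn : n ≠ 0) {P : ℝ[X]} (hP : P.Monic) (hdeg : P.natDegree = n)
    (hS : IsCompact S) (hb : ∀ x ∈ S, |P.eval x| ≤ 1) :
    volume.real S ^ n ≤ 2 ^ (2 * n - 1) := by
  set L := volume.real S with hL
  have hL0 : 0 ≤ L := measureReal_nonneg
  rcases hL0.eq_or_lt with h0 | hLpos
  · rw [← h0, zero_pow hn]; positivity
  have hne : S.Nonempty := by
    by_contra h
    rw [not_nonempty_iff_eq_empty] at h
    rw [hL, h] at hLpos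
    simp at hLpos
  have hex : ∀ i : ℕ, ∃ p ∈ S, distr S p = L * (1 + node n i) / 2 := by
    intro i
    have h1 := (node_mem_Icc (n := n) (i := i)).1
    have h2 := (node_mem_Icc (n := n) (i := i)).2
    refine exists_distr_eq hS hne ?_ ?_
    · have : 0 ≤ 1 + node n i := by linarith
      positivity
    · rw [← hL]
      nlinarith
  choose p hpS hp using hex
  have hdist : ∀ i j, L / 2 * |node n i - node n j| ≤ |p i - p j| := by
    intro i j
    have key : |distr S (p i) - distr S (p j)| ≤ |p i - p j| := by
      rcases le_total (p i) (p j) with h | h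
      · rw [abs_sub_comm, abs_sub_comm (p i) (p j),
          abs_of_nonneg (sub_nonneg.mpr (distr_mono hS h)), abs_of_nonneg (sub_nonneg.mpr h)]
        linarith [distr_sub_le hS h]
      · rw [abs_of_nonneg (sub_nonneg.mpr (distr_mono hS h)), abs_of_nonneg (sub_nonneg.mpr h)]
        linarith [distr_sub_le hS h]
    rw [hp i, hp j] at key
    have h3 : L * (1 + node n i) / 2 - L * (1 + node n j) / 2 = L / 2 * (node n i - node n j) := by
      ring
    rw [h3, abs_mul, abs_of_pos (by positivity : (0:ℝ) < L / 2)] at key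
    exact key
  have hinjn : Set.InjOn (fun i => node n i) (Finset.range (n + 1)) := (strictAntiOn_node n).injOn
  have hinj : Set.InjOn p (Finset.range (n + 1)) := by
    intro i hi j hj hij
    apply hinjn hi hj
    have := hdist i j
    rw [hij, sub_self, abs_zero] at this
    have h4 : |node n i - node n j| ≤ 0 := by
      by_contra h
      push Not at h
      have : 0 < L / 2 * |node n i - node n j| := by positivity
      linarith
    have h5 := abs_nonpos_iff.mp h4
    show node n i = node n j
    linarith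
  have hPdeg : P.degree < (Finset.range (n + 1)).card := by
    rw [Finset.card_range, Polynomial.degree_eq_natDegree hP.ne_zero, hdeg]
    exact_mod_cast Nat.lt_succ_self n
  have hsum := Lagrange.coeff_eq_sum hinj hPdeg
  simp only [Finset.card_range, Nat.add_sub_cancel] at hsum
  have hc : P.coeff n = 1 := by rw [← hdeg]; exact hP
  rw [hc] at hsum
  have hterm : ∀ i ∈ Finset.range (n + 1),
      |P.eval (p i) / ∏ j ∈ (Finset.range (n + 1)).erase i, (p i - p j)|
        ≤ (2 / L) ^ n * (∏ j ∈ (Finset.range (n + 1)).erase i, |node n i - node n j|)⁻¹ := by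
    intro i hi
    have hcard : ((Finset.range (n + 1)).erase i).card = n := by
      rw [Finset.card_erase_of_mem hi, Finset.card_range]; rfl
    have hnodepos : 0 < ∏ j ∈ (Finset.range (n + 1)).erase i, |node n i - node n j| := by
      refine Finset.prod_pos (fun j hj => ?_)
      rw [abs_pos, sub_ne_zero]
      intro h
      exact (Finset.mem_erase.mp hj).1 (hinjn (Finset.mem_of_mem_erase hj) hi h.symm)
    have h1 : (L / 2) ^ n * ∏ j ∈ (Finset.range (n + 1)).erase i, |node n i - node n j|
        ≤ ∏ j ∈ (Finset.range (n + 1)).erase i, |p i - p j| := by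
      calc (L / 2) ^ n * ∏ j ∈ (Finset.range (n + 1)).erase i, |node n i - node n j|
          = ∏ j ∈ (Finset.range (n + 1)).erase i, (L / 2 * |node n i - node n j|) := by
            rw [Finset.prod_mul_distrib, Finset.prod_const, hcard]
        _ ≤ _ := Finset.prod_le_prod (fun j _ => by positivity) (fun j _ => hdist i j)
    rw [abs_div, Finset.abs_prod]
    have hden : 0 < (L / 2) ^ n * ∏ j ∈ (Finset.range (n + 1)).erase i, |node n i - node n j| := by
      positivity
    calc |P.eval (p i)| / ∏ j ∈ (Finset.range (n + 1)).erase i, |p i - p j|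
        ≤ 1 / ((L / 2) ^ n * ∏ j ∈ (Finset.range (n + 1)).erase i, |node n i - node n j|) := by
          apply div_le_div₀ zero_le_one (hb _ (hpS i)) hden h1
      _ = (2 / L) ^ n * (∏ j ∈ (Finset.range (n + 1)).erase i, |node n i - node n j|)⁻¹ := by
          rw [one_div, mul_inv, ← inv_pow, inv_div]
  have hfin : (1 : ℝ) ≤ (2 / L) ^ n * 2 ^ (n - 1) := by
    calc (1 : ℝ) = |∑ i ∈ Finset.range (n + 1),
          P.eval (p i) / ∏ j ∈ (Finset.range (n + 1)).erase i, (p i - p j)| := by
            rw [← hsum, abs_one]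
      _ ≤ ∑ i ∈ Finset.range (n + 1),
          |P.eval (p i) / ∏ j ∈ (Finset.range (n + 1)).erase i, (p i - p j)| :=
            Finset.abs_sum_le_sum_abs _ _
      _ ≤ ∑ i ∈ Finset.range (n + 1), (2 / L) ^ n *
          (∏ j ∈ (Finset.range (n + 1)).erase i, |node n i - node n j|)⁻¹ :=
            Finset.sum_le_sum hterm
      _ = (2 / L) ^ n * 2 ^ (n - 1) := by
            rw [← Finset.mul_sum, sum_inv_prod_abs_node]
  have hLn : 0 < L ^ n := by positivity
  have h6 : (2 / L) ^ n * 2 ^ (n - 1) = 2 ^ (2 * n - 1) / L ^ n := by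
    rw [div_pow, div_mul_eq_mul_div, ← pow_add]
    congr 2
    omega
  rw [h6, le_div_iff₀ hLn, one_mul] at hfin
  exact hfin

end Pool.Agent.H8.CL
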