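import Mathlib
import Pool.Agent.H8.CL.Polya
import Pool.Agent.H8.CL.Cone

/-!
# The set where a real-rooted monic polynomial is at most one in modulus (MP_ff60c2_an, helper8)
-/

open Set MeasureTheory Polynomial

namespace Pool.Agent.H8.CL

variable {n : ℕ}

/-- `∏ |t - x i|` -/
noncomputable def A (x : Fin n → ℝ) (t : ℝ) : ℝ := ∏ i, |t - x i|

/-- the set where `A ≤ 1` -/
def S (x : Fin n → ℝ) : Set ℝ := {t | A x t ≤ 1}

theorem A_cont (x : Fin n → ℝ) : Continuous (A x) := by
  unfold A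
  fun_prop

theorem A_nonneg (x : Fin n → ℝ) (t : ℝ) : 0 ≤ A x t := Finset.prod_nonneg (fun _ _ => abs_nonneg _)

theorem S_closed (x : Fin n → ℝ) : IsClosed (S x) := isClosed_le (A_cont x) continuous_const

theorem A_root (x : Fin n → ℝ) (i : Fin n) : A x (x i) = 0 :=
  Finset.prod_eq_zero (Finset.mem_univ i) (by simp)

theorem root_mem (x : Fin n → ℝ) (i : Fin n) : x i ∈ S x := by
  show A x (x i) ≤ 1
  rw [A_root]; exact zero_le_one

theorem S_compact (x : Fin n → ℝ) (hn : n ≠ 0) : IsCompact (S x) := by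
  have : Nonempty (Fin n) := ⟨⟨0, Nat.pos_of_ne_zero hn⟩⟩
  obtain ⟨M, hM⟩ : ∃ M, ∀ i, |x i| ≤ M := by
    obtain ⟨M, hM⟩ := (Set.finite_range (fun i => |x i|)).bddAbove
    exact ⟨M, fun i => hM ⟨i, rfl⟩⟩
  refine Metric.isCompact_of_isClosed_isBounded (S_closed x) ?_
  refine (Metric.isBounded_Icc (-(M + 1)) (M + 1)).subset ?_
  intro t ht
  by_contra hcon
  have habs : M + 1 < |t| := by
    by_contra h
    push Not at h
    exact hcon (abs_le.mp h)
  have h1 : ∀ i, 1 < |t - x i| := fun i => by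
    have := abs_sub_abs_le_abs_sub t (x i)
    have := hM i
    linarith
  have h2 : 1 < A x t := by
    unfold A
    calc (1 : ℝ) = ∏ i : Fin n, (1 : ℝ) := by simp
      _ < ∏ i, |t - x i| := by
        apply Finset.prod_lt_prod_of_nonempty (fun _ _ => one_pos) (fun i _ => h1 i)
          Finset.univ_nonempty
  have : A x t ≤ 1 := ht
  linarith

/-- no interior local minimum between zeros -/
theorem gap {x : Fin n → ℝ} {p q t : ℝ} (hpt : p < t) (htq : t < q)
    (hx : ∀ i, x i ≤ p ∨ q ≤ x i) (hp : 1 < A x p) (hq : 1 < A x q) : 1 < A x t := by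
  set v := (t - p) / (q - p) with hv
  have hqp : 0 < q - p := by linarith
  have hv0 : 0 < v := div_pos (by linarith) hqp
  have hv1 : v < 1 := by rw [hv, div_lt_one hqp]; linarith
  have ht : t = (1 - v) * p + v * q := by
    rw [hv]; field_simp; ring
  have h1 : ∀ i, |p - x i| ^ (1 - v) * |q - x i| ^ v ≤ |t - x i| := by
    intro i
    rw [ht]
    exact far_le (by linarith) hv0.le hv1.le (hx i)
  calc (1 : ℝ) < A x p ^ (1 - v) * A x q ^ v := by
        have e1 : 1 < A x p ^ (1 - v) := Real.one_lt_rpow hp (by linarith)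
        have e2 : 1 < A x q ^ v := Real.one_lt_rpow hq hv0
        nlinarith
    _ = ∏ i, (|p - x i| ^ (1 - v) * |q - x i| ^ v) := by
        unfold A
        rw [Finset.prod_mul_distrib, Real.finsetProd_rpow _ _ (fun _ _ => abs_nonneg _),
          Real.finsetProd_rpow _ _ (fun _ _ => abs_nonneg _)]
    _ ≤ A x t := Finset.prod_le_prod (fun i _ => by positivity) (fun i _ => h1 i)

/-- every point of `S` is joined to a zero inside `S` -/
theorem exists_root_joined {x : Fin n → ℝ} (hn : n ≠ 0) {t : ℝ} (ht : t ∈ S x) :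
    ∃ i, uIcc (t) (x i) ⊆ S x := by
  classical
  by_contra hcon
  push Not at hcon
  have hne : ∀ i, x i ≠ t := by
    intro i hi
    apply hcon i
    rw [hi, uIcc_self, singleton_subset_iff]
    exact ht
  have hfin : Nonempty (Fin n) := ⟨⟨0, Nat.pos_of_ne_zero hn⟩⟩
  -- zeros to the left
  by_cases hL : ∃ i, x i < t
  swap
  · push Not at hL
    -- all zeros to the right: the smallest
    obtain ⟨i, _, hi⟩ := Finset.exists_min_image Finset.univ x Finset.univ_nonempty
    apply hcon i
    intro s hs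
    rw [uIcc_of_le (hL i)] at hs
    show A x s ≤ 1
    refine le_trans ?_ (show A x t ≤ 1 from ht)
    refine Finset.prod_le_prod (fun _ _ => abs_nonneg _) (fun j _ => ?_)
    have h1 := hi j (Finset.mem_univ j)
    rw [abs_of_nonpos (by linarith [hs.2]), abs_of_nonpos (by linarith [hL j])]
    linarith [hs.1]
  by_cases hR : ∃ i, t < x i
  swap
  · push Not at hR
    obtain ⟨i, _, hi⟩ := Finset.exists_max_image Finset.univ x Finset.univ_nonempty
    apply hcon i
    intro s hs
    rw [uIcc_of_ge (hR i)] at hs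
    show A x s ≤ 1
    refine le_trans ?_ (show A x t ≤ 1 from ht)
    refine Finset.prod_le_prod (fun _ _ => abs_nonneg _) (fun j _ => ?_)
    have h1 := hi j (Finset.mem_univ j)
    rw [abs_of_nonneg (by linarith [hs.1]), abs_of_nonneg (by linarith [hR j])]
    linarith [hs.2]
  obtain ⟨l, hlmem, hlmax⟩ := Finset.exists_max_image (Finset.univ.filter (fun i => x i < t)) x
    (by obtain ⟨i, hi⟩ := hL; exact ⟨i, by simp [hi]⟩)
  obtain ⟨r, hrmem, hrmin⟩ := Finset.exists_min_image (Finset.univ.filter (fun i => t < x i)) x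
    (by obtain ⟨i, hi⟩ := hR; exact ⟨i, by simp [hi]⟩)
  have hl : x l < t := (Finset.mem_filter.mp hlmem).2
  have hr : t < x r := (Finset.mem_filter.mp hrmem).2
  obtain ⟨p, hp, hpS⟩ := not_subset.mp (hcon l)
  obtain ⟨q, hq, hqS⟩ := not_subset.mp (hcon r)
  rw [uIcc_of_ge hl.le] at hp
  rw [uIcc_of_le hr.le] at hq
  have hpA : 1 < A x p := by by_contra h; exact hpS (not_lt.mp h)
  have hqA : 1 < A x q := by by_contra h; exact hqS (not_lt.mp h)
  have hpt : p < t := lt_of_le_of_ne hp.2 (by rintro rfl; exact hpS ht)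
  have htq : t < q := lt_of_le_of_ne hq.1 (by rintro rfl; exact hqS ht)
  have := gap hpt htq (x := x) (fun i => by
    rcases lt_or_gt_of_ne (hne i) with h | h
    · exact Or.inl ((hlmax i (by simp [h])).trans hp.1)
    · exact Or.inr (hq.2.trans (hrmin i (by simp [h])))) hpA hqA
  have h2 : A x t ≤ 1 := ht
  linarith

/-- the component of `S` through a zero -/
theorem exists_comp {x : Fin n → ℝ} (hn : n ≠ 0) (i : Fin n) :
    ∃ I : ℝ × ℝ, I.1 < x i ∧ x i < I.2 ∧ Icc I.1 I.2 ⊆ S x ∧ 1 ≤ A x I.1 ∧ 1 ≤ A x I.2 ∧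
      ∀ y, uIcc (x i) (y) ⊆ S x → y ∈ Icc I.1 I.2 := by
  set C := ordConnectedComponent (S x) (x i) with hC
  have hxC : x i ∈ C := self_mem_ordConnectedComponent.mpr (root_mem x i)
  have hCsub : C ⊆ S x := ordConnectedComponent_subset
  have hbdd := (S_compact x hn).isBounded.subset hCsub
  have hba : BddAbove C := hbdd.bddAbove
  have hbb : BddBelow C := hbdd.bddBelow
  set a := sInf C with ha
  set b := sSup C with hb
  have hax : a ≤ x i := csInf_le hbb hxC
  have hxb : x i ≤ b := le_csSup hba hxC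
  have hmem : ∀ t, a < t → t < b → t ∈ C := by
    intro t h1 h2
    obtain ⟨c1, hc1, hc1t⟩ := exists_lt_of_csInf_lt ⟨_, hxC⟩ h1
    obtain ⟨c2, hc2, hc2t⟩ := exists_lt_of_lt_csSup ⟨_, hxC⟩ h2
    exact (inferInstance : OrdConnected C).out hc1 hc2 ⟨hc1t.le, hc2t.le⟩
  -- a neighbourhood of a point with `A < 1`
  have hnhds : ∀ t, A x t < 1 → ∃ ε > 0, ∀ s, |s - t| < ε → A x s < 1 := by
    intro t ht
    have := (isOpen_lt (A_cont x) continuous_const).mem_nhds (show t ∈ {s | A x s < 1} from ht)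
    obtain ⟨ε, hε, hball⟩ := Metric.mem_nhds_iff.mp this
    refine ⟨ε, hε, fun s hs => hball ?_⟩
    rw [Metric.mem_ball, Real.dist_eq]; exact hs
  have hext : ∀ t ε, t ∈ C → 0 < ε → (∀ s, |s - t| < ε → A x s < 1) →
      ∀ s, |s - t| < ε → s ∈ C := by
    intro t ε htC hε hs s hst
    refine mem_ordConnectedComponent_trans htC ?_
    rw [mem_ordConnectedComponent]
    intro r hr
    refine (hs r ?_).le
    rcases le_total t s with h | h
    · rw [uIcc_of_le h] at hr
      rw [abs_of_nonneg (by linarith [hr.1])]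
      rw [abs_of_nonneg (by linarith)] at hst
      linarith [hr.2]
    · rw [uIcc_of_ge h] at hr
      rw [abs_of_nonpos (by linarith [hr.2])]
      rw [abs_of_nonpos (by linarith)] at hst
      linarith [hr.1]
  obtain ⟨ε, hε, hball⟩ := hnhds (x i) (by rw [A_root]; exact one_pos)
  have hC1 := hext (x i) ε hxC hε hball
  have hax' : a < x i := by
    have h1 : x i - ε / 2 ∈ C := hC1 _ (by rw [sub_sub_cancel_left, abs_neg, abs_of_pos (by linarith)]; linarith)
    have := csInf_le hbb h1
    linarith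
  have hxb' : x i < b := by
    have h1 : x i + ε / 2 ∈ C := hC1 _ (by rw [add_sub_cancel_left, abs_of_pos (by linarith)]; linarith)
    have := le_csSup hba h1
    linarith
  have hIoo : Ioo a b ⊆ S x := fun t ht => hCsub (hmem t ht.1 ht.2)
  have hIcc : Icc a b ⊆ S x := by
    have : closure (Ioo a b) ⊆ S x := closure_minimal hIoo (S_closed x)
    rwa [closure_Ioo (by linarith : a ≠ b)] at this
  have hIccC : ∀ t ∈ Icc a b, t ∈ C := by
    intro t ht
    rw [hC, mem_ordConnectedComponent]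
    refine subset_trans ?_ hIcc
    exact uIcc_subset_Icc ⟨hax, hxb⟩ ht
  refine ⟨(a, b), hax', hxb', hIcc, ?_, ?_, ?_⟩
  · by_contra h
    push Not at h
    obtain ⟨δ, hδ, hb'⟩ := hnhds a h
    have h1 := hext a δ (hIccC a ⟨le_rfl, by linarith⟩) hδ hb' (a - δ / 2)
      (by rw [sub_sub_cancel_left, abs_neg, abs_of_pos (by linarith)]; linarith)
    have := csInf_le hbb h1
    linarith
  · by_contra h
    push Not at h
    obtain ⟨δ, hδ, hb'⟩ := hnhds b h
    have h1 := hext b δ (hIccC b ⟨by linarith, le_rfl⟩) hδ hb' (b + δ / 2)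
      (by rw [add_sub_cancel_left, abs_of_pos (by linarith)]; linarith)
    have := le_csSup hba h1
    linarith
  · intro y hy
    have : y ∈ C := by rw [hC, mem_ordConnectedComponent]; exact hy
    exact ⟨csInf_le hbb this, le_csSup hba this⟩

/-- the polynomial with zeros `x i` -/
theorem vol_S_le {x : Fin n → ℝ} (hn : n ≠ 0) :
    volume.real (S x) / 2 ≤ (2 : ℝ) ^ (1 - 1 / (n : ℝ)) := by
  have hP : (∏ i, (X - C (x i)) : ℝ[X]).Monic := monic_prod_of_monic _ _ (fun i _ => monic_X_sub_C _)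
  have hdeg : (∏ i, (X - C (x i)) : ℝ[X]).natDegree = n := by
    rw [natDegree_prod_of_monic _ _ (fun i _ => monic_X_sub_C _)]
    simp
  have h := polya hn hP hdeg (S_compact x hn) (fun t ht => by
    rw [eval_prod, Finset.abs_prod]
    simpa [A] using (show A x t ≤ 1 from ht))
  set L := volume.real (S x) with hL
  have hL0 : 0 ≤ L := measureReal_nonneg
  have hn' : (n : ℝ) ≠ 0 := Nat.cast_ne_zero.mpr hn
  have h1 : (L / 2) ^ n ≤ ((2 : ℝ) ^ (1 - 1 / (n : ℝ))) ^ n := by
    have e1 : ((2 : ℝ) ^ (1 - 1 / (n : ℝ))) ^ n = 2 ^ (n - 1) := by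
      rw [← Real.rpow_natCast, ← Real.rpow_mul (by norm_num)]
      have : (1 - 1 / (n : ℝ)) * n = ((n - 1 : ℕ) : ℝ) := by
        rw [Nat.cast_sub (Nat.pos_of_ne_zero hn)]
        field_simp
        simp
      rw [this, Real.rpow_natCast]
    rw [e1, div_pow, div_le_iff₀ (by positivity), ← pow_add]
    have : n - 1 + n = 2 * n - 1 := by omega
    rw [this]
    exact h
  exact le_of_pow_le_pow_left₀ hn (by positivity) h1

end Pool.Agent.H8.CL
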