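import Mathlib
import Pool.Agent.H8.CL.Comp

/-!
# The covering theorem in coordinates (MP_ff60c2_an, helper8)
-/

open Set MeasureTheory

namespace Pool.Agent.H8.CL

variable {n : ℕ}

/-- apex of the double cone -/
theorem exists_apex {x y : Fin n → ℝ} {κ : ℝ} (hκ : 0 ≤ κ) (J : Finset (Fin n)) (hJ : J.Nonempty)
    (hc : ∀ j ∈ J, ∀ k ∈ J, |y j - y k| ≤ κ * |x j - x k|) (c : ℝ) :
    ∃ y₀, ∀ j ∈ J, |y j - y₀| ≤ κ * |x j - c| := by
  obtain ⟨k, hk, hmax⟩ := J.exists_max_image (fun j => y j - κ * |x j - c|) hJ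
  refine ⟨y k - κ * |x k - c|, fun j hj => ?_⟩
  have h1 : y j - κ * |x j - c| ≤ y k - κ * |x k - c| := hmax j hj
  have h2 := hc k hk j hj
  have h3 : |x k - x j| ≤ |x k - c| + |x j - c| := by
    have := abs_sub_le (x k) c (x j)
    rwa [abs_sub_comm c (x j)] at this
  have h4 : κ * |x k - x j| ≤ κ * |x k - c| + κ * |x j - c| := by
    have := mul_le_mul_of_nonneg_left h3 hκ
    linarith
  rw [abs_le]
  constructor
  · have := le_abs_self (y k - y j)
    linarith
  · linarith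

theorem cover {x y : Fin n → ℝ} (hn : n ≠ 0) {κ : ℝ} (hκ : 0 ≤ κ)
    (hcone : ∀ j k, uIcc (x j) (x k) ⊆ S x → |y j - y k| ≤ κ * |x j - x k|) :
    ∃ (F : Finset (ℝ × ℝ)) (cen : ℝ × ℝ → ℝ), (∀ I ∈ F, I.1 < I.2) ∧
      (∑ I ∈ F, (I.2 - I.1) ≤ volume.real (S x)) ∧
      ∀ X Y : ℝ, ∏ i, Real.sqrt ((X - x i) ^ 2 + (Y - y i) ^ 2) ≤ 1 →
        ∃ I ∈ F, (X - (I.1 + I.2) / 2) ^ 2 + (Y - cen I) ^ 2 ≤
          (1 + κ ^ 2) * ((I.2 - I.1) / 2) ^ 2 := by
  classical
  choose I hI1 hI2 hIS hA1 hA2 hImax using fun i => exists_comp (x := x) hn i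
  set F : Finset (ℝ × ℝ) := Finset.univ.image I with hF
  have hFmem : ∀ K, K ∈ F ↔ ∃ i, I i = K := by
    intro K; rw [hF]; simp
  -- apexes
  have hapex : ∀ K : ℝ × ℝ, K ∈ F → ∃ y₀, ∀ j, x j ∈ Icc K.1 K.2 →
      |y j - y₀| ≤ κ * |x j - (K.1 + K.2) / 2| := by
    intro K hK
    obtain ⟨i, rfl⟩ := (hFmem K).mp hK
    obtain ⟨y₀, hy₀⟩ := exists_apex (x := x) (y := y) hκ
      (Finset.univ.filter (fun j => x j ∈ Icc (I i).1 (I i).2))
      ⟨i, by simp [(hI1 i).le, (hI2 i).le]⟩
      (fun j hj k hk => hcone j k ((uIcc_subset_Icc (Finset.mem_filter.mp hj).2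
        (Finset.mem_filter.mp hk).2).trans (hIS i))) (((I i).1 + (I i).2) / 2)
    exact ⟨y₀, fun j hj => hy₀ j (by simpa using hj)⟩
  choose! cen hcen using hapex
  refine ⟨F, cen, ?_, ?_, ?_⟩
  · intro K hK
    obtain ⟨i, rfl⟩ := (hFmem K).mp hK
    linarith [hI1 i, hI2 i]
  · -- disjointness
    have hdisj : (F : Set (ℝ × ℝ)).PairwiseDisjoint (fun K => Icc K.1 K.2) := by
      intro K hK L hL hKL
      obtain ⟨i, rfl⟩ := (hFmem K).mp hK
      obtain ⟨j, rfl⟩ := (hFmem L).mp hL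
      show Disjoint (Icc (I i).1 (I i).2) (Icc (I j).1 (I j).2)
      rw [Set.disjoint_left]
      intro t hti htj
      apply hKL
      have hti' : uIcc (x i) t ⊆ S x :=
        (uIcc_subset_Icc ⟨(hI1 i).le, (hI2 i).le⟩ hti).trans (hIS i)
      have htj' : uIcc (x j) t ⊆ S x :=
        (uIcc_subset_Icc ⟨(hI1 j).le, (hI2 j).le⟩ htj).trans (hIS j)
      -- endpoints of each interval belong to the other one
      have hcross : ∀ i j, uIcc (x i) t ⊆ S x → uIcc (x j) t ⊆ S x → t ∈ Icc (I j).1 (I j).2 →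
          ∀ s ∈ Icc (I j).1 (I j).2, s ∈ Icc (I i).1 (I i).2 := by
        intro i j h1 _ h3 s hs
        apply hImax i s
        refine (uIcc_subset_uIcc_union_uIcc (b := t)).trans (union_subset h1 ?_)
        exact (uIcc_subset_Icc h3 hs).trans (hIS j)
      have e1 := hcross i j hti' htj' htj
      have e2 := hcross j i htj' hti' hti
      have hji := (hI1 j).le.trans (hI2 j).le
      have hii := (hI1 i).le.trans (hI2 i).le
      have a1 := e1 _ (left_mem_Icc.mpr hji)
      have a2 := e1 _ (right_mem_Icc.mpr hji)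
      have a3 := e2 _ (left_mem_Icc.mpr hii)
      have a4 := e2 _ (right_mem_Icc.mpr hii)
      exact Prod.ext (le_antisymm a1.1 a3.1) (le_antisymm a4.2 a2.2)
    have hsub : (⋃ K ∈ F, Icc K.1 K.2) ⊆ S x := by
      intro t ht
      simp only [mem_iUnion] at ht
      obtain ⟨K, hK, ht⟩ := ht
      obtain ⟨i, rfl⟩ := (hFmem K).mp hK
      exact hIS i ht
    have h1 : volume.real (⋃ K ∈ F, Icc K.1 K.2) = ∑ K ∈ F, (K.2 - K.1) := by
      rw [measureReal_biUnion_finset hdisj (fun K _ => measurableSet_Icc)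
        (fun K _ => by rw [Real.volume_Icc]; exact ENNReal.ofReal_ne_top)]
      · refine Finset.sum_congr rfl (fun K hK => ?_)
        obtain ⟨i, rfl⟩ := (hFmem K).mp hK
        rw [measureReal_def, Real.volume_Icc, ENNReal.toReal_ofReal]
        linarith [hI1 i, hI2 i]
    rw [← h1]
    exact measureReal_mono hsub (S_compact x hn).measure_lt_top.ne
  · intro X Y hXY
    have hAX : A x X ≤ 1 := by
      refine le_trans ?_ hXY
      refine Finset.prod_le_prod (fun _ _ => abs_nonneg _) (fun i _ => ?_)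
      refine Real.abs_le_sqrt ?_
      nlinarith [sq_nonneg (Y - y i)]
    obtain ⟨i, hi⟩ := exists_root_joined hn (x := x) (t := X) hAX
    have hXi : X ∈ Icc (I i).1 (I i).2 := hImax i X (by rwa [uIcc_comm])
    refine ⟨I i, (hFmem _).mpr ⟨i, rfl⟩, ?_⟩
    by_contra hout
    push Not at hout
    set a := (I i).1 with ha
    set b := (I i).2 with hb
    have hab : a < b := by linarith [hI1 i, hI2 i]
    set v := (X - a) / (b - a) with hv
    have hba : 0 < b - a := by linarith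
    have hv0 : 0 ≤ v := div_nonneg (by linarith [hXi.1]) hba.le
    have hv1 : v ≤ 1 := by rw [hv, div_le_one hba]; linarith [hXi.2]
    have hX : X = (1 - v) * a + v * b := by
      rw [hv]; field_simp; ring
    have hA1' : 1 ≤ A x a := hA1 i
    have hA2' : 1 ≤ A x b := hA2 i
    have hpos1 : ∀ j, 0 < |a - x j| := by
      intro j
      rw [abs_pos, sub_ne_zero]
      intro h
      have : A x a = 0 := by rw [h]; exact A_root x j
      linarith
    have hpos2 : ∀ j, 0 < |b - x j| := by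
      intro j
      rw [abs_pos, sub_ne_zero]
      intro h
      have : A x b = 0 := by rw [h]; exact A_root x j
      linarith
    have hin : ∀ j, x j ∈ Icc a b → |a - x j| ^ (1 - v) * |b - x j| ^ v <
        Real.sqrt ((X - x j) ^ 2 + (Y - y j) ^ 2) := by
      intro j hj
      have := cone_lt (y := Y) (y₀ := cen (I i)) (p := x j) (q := y j) (κ := κ) hab hv0 hv1 hj hκ
        (hcen (I i) ((hFmem _).mpr ⟨i, rfl⟩) j hj) (by rw [← hX]; exact hout)
      rwa [← hX] at this
    have hle : ∀ j, |a - x j| ^ (1 - v) * |b - x j| ^ v ≤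
        Real.sqrt ((X - x j) ^ 2 + (Y - y j) ^ 2) := by
      intro j
      by_cases hj : x j ∈ Icc a b
      · exact (hin j hj).le
      · have hj' : x j ≤ a ∨ b ≤ x j := by
          rcases lt_or_ge (x j) a with h | h
          · exact Or.inl h.le
          · refine Or.inr ?_
            by_contra h2
            exact hj ⟨h, (not_le.mp h2).le⟩
        have h1 := far_le hab.le hv0 hv1 hj'
        rw [← hX] at h1
        refine h1.trans ?_
        refine Real.abs_le_sqrt ?_
        nlinarith [sq_nonneg (Y - y j)]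
    have hlt : ∏ j, (|a - x j| ^ (1 - v) * |b - x j| ^ v) <
        ∏ j, Real.sqrt ((X - x j) ^ 2 + (Y - y j) ^ 2) := by
      refine Finset.prod_lt_prod (fun j _ => ?_) (fun j _ => hle j)
        ⟨i, Finset.mem_univ i, hin i ⟨(hI1 i).le, (hI2 i).le⟩⟩
      have := hpos1 j
      have := hpos2 j
      positivity
    rw [Finset.prod_mul_distrib, Real.finsetProd_rpow _ _ (fun _ _ => abs_nonneg _),
      Real.finsetProd_rpow _ _ (fun _ _ => abs_nonneg _)] at hlt
    have h5 : 1 ≤ A x a ^ (1 - v) := Real.one_le_rpow hA1' (by linarith)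
    have h6 : 1 ≤ A x b ^ v := Real.one_le_rpow hA2' hv0
    have h7 : (∏ j, |a - x j|) ^ (1 - v) * (∏ j, |b - x j|) ^ v = A x a ^ (1 - v) * A x b ^ v := rfl
    rw [h7] at hlt
    nlinarith

end Pool.Agent.H8.CL
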