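import Mathlib
import Pool.Prelude.Def_F_472fcd70

/-!
# Sharpness for collinear zeros (MP_ff60c2_an, helper8)
-/

open Set MeasureTheory Polynomial Polynomial.Chebyshev N460a421b

namespace Pool.Agent.H8.CL

/-- zeros of the Chebyshev polynomial -/
noncomputable def cz (n k : ℕ) : ℝ := Real.cos ((2 * k + 1) * Real.pi / (2 * n))

theorem T_eq_prod {n : ℕ} (t : ℝ) :
    (T ℝ n).eval t = 2 ^ (n - 1) * ∏ k ∈ Finset.range n, (t - cz n k) := by
  have hinj : Set.InjOn (fun k : ℕ => cz n k) (Finset.range n) :=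
    (Finset.range n).nodup_map_iff_injOn.mp (roots_T_real_nodup n)
  have hcard : Multiset.card (T ℝ n).roots = (T ℝ n).natDegree := by
    rw [roots_T_real]
    have h1 : (T ℝ n).natDegree = n := by
      rw [natDegree_T]; simp
    rw [h1]
    show (Finset.image (fun k : ℕ => cz n k) (Finset.range n)).card = n
    rw [Finset.card_image_of_injOn hinj, Finset.card_range]
  have h := C_leadingCoeff_mul_prod_multiset_X_sub_C hcard
  rw [roots_T_real] at h
  have hl : (T ℝ n).leadingCoeff = 2 ^ (n - 1) := by simp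
  rw [hl] at h
  rw [← h, eval_mul, eval_C, eval_multiset_prod, Multiset.map_map]
  congr 1
  show (Finset.image (fun k : ℕ => cz n k) (Finset.range n)).prod
    (fun a => eval t (X - C a)) = _
  rw [Finset.prod_image hinj]
  simp

theorem sharp (n : ℕ) (hn : n ≠ 0) : ∃ f : ℂ[X], f.Monic ∧ f.natDegree = n ∧
    (∀ z ∈ f.roots, z.im = 0) ∧ ∀ (ι : Type) (r : ℝ),
      Nonempty (BoundedDiscCover {z : ℂ | ‖f.eval z‖ ≤ 1} r ι) →
        (2 : ℝ) ^ (1 - 1 / (n : ℝ)) ≤ r := by
  set l : ℝ := (2 : ℝ) ^ (1 - 1 / (n : ℝ)) with hl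
  have hlpos : 0 < l := by positivity
  have hn' : (n : ℝ) ≠ 0 := Nat.cast_ne_zero.mpr hn
  have hln : l ^ n = 2 ^ (n - 1) := by
    rw [hl, ← Real.rpow_natCast, ← Real.rpow_mul (by norm_num)]
    have : (1 - 1 / (n : ℝ)) * n = ((n - 1 : ℕ) : ℝ) := by
      rw [Nat.cast_sub (Nat.pos_of_ne_zero hn)]
      field_simp
      simp
    rw [this, Real.rpow_natCast]
  refine ⟨∏ k ∈ Finset.range n, (X - C ((l * cz n k : ℝ) : ℂ)),
    monic_prod_of_monic _ _ (fun i _ => monic_X_sub_C _), ?_, ?_, ?_⟩
  · rw [natDegree_prod_of_monic _ _ (fun i _ => monic_X_sub_C _)]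
    simp only [natDegree_X_sub_C, Finset.sum_const, Finset.card_range, smul_eq_mul, mul_one]
  · intro z hz
    rw [mem_roots'] at hz
    have h := hz.2
    rw [IsRoot.def, eval_prod, Finset.prod_eq_zero_iff] at h
    obtain ⟨k, _, hk⟩ := h
    rw [eval_sub, eval_X, eval_C, sub_eq_zero] at hk
    rw [hk, Complex.ofReal_im]
  · rintro ι r ⟨K⟩
    have hmem : ∀ t ∈ Icc (-l) l, (t : ℂ) ∈ {z : ℂ | ‖(∏ k ∈ Finset.range n,
        (X - C ((l * cz n k : ℝ) : ℂ))).eval z‖ ≤ 1} := by
      intro t ht
      have h1 : (∏ k ∈ Finset.range n, (X - C ((l * cz n k : ℝ) : ℂ))).eval (t : ℂ)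
          = (((T ℝ n).eval (t / l) : ℝ) : ℂ) := by
        rw [eval_prod, T_eq_prod, ← hln]
        simp only [eval_sub, eval_X, eval_C]
        have h2 : l ^ n * ∏ k ∈ Finset.range n, (t / l - cz n k)
            = ∏ k ∈ Finset.range n, (t - l * cz n k) := by
          have : l ^ n = ∏ k ∈ Finset.range n, l := by simp
          rw [this, ← Finset.prod_mul_distrib]
          refine Finset.prod_congr rfl (fun k _ => ?_)
          field_simp
        rw [h2]
        push_cast
        rfl
      show ‖_‖ ≤ 1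
      rw [h1, Complex.norm_real, Real.norm_eq_abs]
      apply abs_eval_T_real_le_one
      rw [abs_div, abs_of_pos hlpos, div_le_one hlpos]
      exact abs_le.mpr ht
    have hcount : Countable ι := by
      have h1 := K.h_summable.countable_support
      have h2 : Function.support (fun i => K.R i) = Set.univ := by
        ext i; simp [(K.h_pos i).ne']
      rw [h2] at h1
      exact countable_univ_iff.mp h1
    have hsub : Icc (-l) l ⊆ ⋃ i, Icc ((K.C i).re - K.R i) ((K.C i).re + K.R i) := by
      intro t ht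
      obtain ⟨i, hi⟩ := mem_iUnion.mp (K.h_cover (hmem t ht))
      refine mem_iUnion.mpr ⟨i, ?_⟩
      rw [Metric.mem_closedBall, Complex.dist_eq] at hi
      have h3 := (Complex.abs_re_le_norm ((t : ℂ) - K.C i)).trans hi
      rw [Complex.sub_re, Complex.ofReal_re] at h3
      have h4 := abs_le.mp h3
      exact ⟨by linarith [h4.1], by linarith [h4.2]⟩
    have hvol : ENNReal.ofReal (2 * l) ≤ ENNReal.ofReal (2 * r) := by
      calc ENNReal.ofReal (2 * l) = volume (Icc (-l) l) := by
            rw [Real.volume_Icc]; congr 1; ring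
        _ ≤ volume (⋃ i, Icc ((K.C i).re - K.R i) ((K.C i).re + K.R i)) := measure_mono hsub
        _ ≤ ∑' i, volume (Icc ((K.C i).re - K.R i) ((K.C i).re + K.R i)) := measure_iUnion_le _
        _ = ∑' i, ENNReal.ofReal (2 * K.R i) := by
            refine tsum_congr (fun i => ?_)
            rw [Real.volume_Icc]; congr 1; ring
        _ = ENNReal.ofReal (∑' i, 2 * K.R i) :=
            (ENNReal.ofReal_tsum_of_nonneg (fun i => by have := K.h_pos i; positivity)
              (K.h_summable.mul_left 2)).symm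
        _ ≤ ENNReal.ofReal (2 * r) := by
            apply ENNReal.ofReal_le_ofReal
            rw [tsum_mul_left]
            have := K.h_bdd
            linarith
    have h0r : 0 ≤ 2 * r := by
      have h5 : 0 ≤ ∑' i, K.R i := tsum_nonneg (fun i => (K.h_pos i).le)
      linarith [K.h_bdd]
    have := (ENNReal.ofReal_le_ofReal_iff h0r).mp hvol
    linarith

end Pool.Agent.H8.CL
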